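import Pool.Agent.Y466.TW.Step
import Pool.Agent.Y466.TW.Neg
import Pool.Agent.Y466.TW.Stm2
import Pool.Agent.Y259.TW.CONGA
import Pool.Agent.Y436.TW.CONGB
import Pool.Agent.Y407.TW.PRODA
import Pool.Agent.Y43.TW.T4
import Pool.Agent.Y43.TW.ISO
import Pool.Agent.Y93.TW.T8
import Pool.Agent.Y799.TW.PD
import Pool.Agent.Y465.TW.FIN
import Pool.Agent.Y692.TW.NO
import Pool.Agent.Y929.TW.NOFIVE

/-! # Unimodular classes on tori whose form is `k E₈ ⊕ l H`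

The starting result gives a class `ω ∈ H^4(Z^8)` with form `E₈ ⊕ 10 H`. Here, for every `n` divisible
by `4` and every integer `k ≠ 0` with `8 |k| ≤ n` there is a class `ω ∈ H^(n-4)(Z^n)` with form
`k E₈ ⊕ l H`, `8 |k| + 2 l = n (n - 1) / 2`. -/

set_option autoImplicit false

namespace Pool.Agent.Results.MP_69cf13_gt.EightKPlusHyperbolic

open Matrix
open scoped Kronecker
open Pool.Agent.Results.MP_69cf13_gt.EEightPlusTenH (Coh H T IsFormOf IsZBasis)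

/-- The Gram matrix of the lattice `k E₈ ⊕ l H`: `|k|` blocks `E₈` (blocks `- E₈` if `k < 0`)
followed by `l` hyperbolic planes `!![0, 1; 1, 0]`. -/
def gram (k : ℤ) (l : ℕ) : Matrix ((Fin k.natAbs × Fin 8) ⊕ (Fin l × Fin 2))
    ((Fin k.natAbs × Fin 8) ⊕ (Fin l × Fin 2)) ℤ :=
  fromBlocks (k.sign • ((1 : Matrix (Fin k.natAbs) (Fin k.natAbs) ℤ) ⊗ₖ CartanMatrix.E₈)) 0 0
    ((1 : Matrix (Fin l) (Fin l) ℤ) ⊗ₖ !![0, 1; 1, 0])

/-- The class `ω` has the form `k E₈ ⊕ l H`: there is a form `φ` on `H^2(Z^n)` with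
`x y ω = φ(x, y) [T]` and a `Z`-basis of `H^2(Z^n)` with Gram matrix `gram k l`. -/
def HasForm (n : ℕ) (ω : Coh n) (k : ℤ) (l : ℕ) : Prop :=
  ∃ φ : Coh n → Coh n → ℤ, IsFormOf (H n 2) ω (T n) φ ∧
    ∃ b : (Fin k.natAbs × Fin 8) ⊕ (Fin l × Fin 2) → Coh n,
      IsZBasis (H n 2) b ∧ ∀ i j, φ (b i) (b j) = gram k l i j

/-- For every `n` divisible by `4` and every integer `k ≠ 0` with `8 |k| ≤ n` some class
`ω ∈ H^(n-4)(Z^n)` has form `k E₈ ⊕ l H`, where `8 |k| + 2 l = n (n - 1) / 2`. -/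
theorem exists_class (n : ℕ) (k : ℤ) (hn : 4 ∣ n) (hk : k ≠ 0) (hkn : 8 * k.natAbs ≤ n) :
    ∃ ω ∈ H n (n - 4), ∃ l : ℕ, 8 * k.natAbs + 2 * l = n.choose 2 ∧ HasForm n ω k l := by
  have h := Pool.Agent.Y466.TW.main Pool.Agent.Y259.TW.conga
    (Pool.Agent.Y436.TW.congb Pool.Agent.Y259.TW.conga) Pool.Agent.Y407.TW.proda
    Pool.Agent.Y43.TW.T4.tfour Pool.Agent.Y93.TW.teight
    (Pool.Agent.Y43.TW.ISO.iso Pool.Agent.Y259.TW.conga)
    (Pool.Agent.Y465.TW.fin Pool.Agent.Y799.TW.PD.pd) n k.natAbs hn (Int.natAbs_pos.2 hk) hkn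
  obtain ⟨ω, hω, φ, hφ, l, b, hl, hb, h1⟩ := Pool.Agent.Y466.TW.real_int hk h
  exact ⟨ω, hω, l, hl, φ, hφ, b, hb, h1⟩

/-- The class `ω` is unimodular: for some (finite) `Z`-basis of `H^2(Z^n)` the Gram matrix of
`φ_ω` has determinant `± 1`. -/
def Unimodular (n : ℕ) (ω : Coh n) : Prop :=
  ∃ φ : Coh n → Coh n → ℤ, IsFormOf (H n 2) ω (T n) φ ∧
    ∃ (m : ℕ) (b : Fin m → Coh n), IsZBasis (H n 2) b ∧
      |(Matrix.of fun i j => φ (b i) (b j)).det| = 1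

theorem gram_unit (k : ℤ) (l : ℕ) (hk : k ≠ 0) : |(gram k l).det| = 1 := by
  have hs : k.sign * k.sign = 1 := by
    rcases lt_or_gt_of_ne hk with h | h
    · rw [Int.sign_eq_neg_one_of_neg h]; norm_num
    · rw [Int.sign_eq_one_of_pos h]; norm_num
  have h1 : CartanMatrix.E₈ * Pool.Agent.Results.MP_69cf13_gt.EEightPlusTenH.Aux.E8inv = 1 := by
    decide +kernel
  have h2 : (!![0, 1; 1, 0] : Matrix (Fin 2) (Fin 2) ℤ) * !![0, 1; 1, 0] = 1 := by decide +kernel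
  have h3 : gram k l * fromBlocks (k.sign • ((1 : Matrix (Fin k.natAbs) (Fin k.natAbs) ℤ) ⊗ₖ
      Pool.Agent.Results.MP_69cf13_gt.EEightPlusTenH.Aux.E8inv)) 0 0
      ((1 : Matrix (Fin l) (Fin l) ℤ) ⊗ₖ !![0, 1; 1, 0]) = 1 := by
    unfold gram
    rw [fromBlocks_multiply]
    simp only [Matrix.smul_mul, Matrix.mul_smul, smul_smul, hs, one_smul, Matrix.mul_zero,
      Matrix.zero_mul, add_zero, zero_add, smul_zero, ← Matrix.mul_kronecker_mul, Matrix.one_mul, h1, h2,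
      Matrix.one_kronecker_one, fromBlocks_one]
  have h4 := congrArg Matrix.det h3
  rw [det_mul, det_one] at h4
  exact Int.isUnit_iff_abs_eq.1 (IsUnit.of_mul_eq_one _ h4)

/-- A class with form `k E₈ ⊕ l H`, `k ≠ 0`, is unimodular. -/
theorem HasForm.unimodular {n : ℕ} {ω : Coh n} {k : ℤ} {l : ℕ} (hk : k ≠ 0)
    (h : HasForm n ω k l) : Unimodular n ω := by
  obtain ⟨φ, hφ, b, ⟨hb1, hb2, hb3⟩, hb⟩ := h
  set e := (Fintype.equivFin ((Fin k.natAbs × Fin 8) ⊕ (Fin l × Fin 2))).symm with he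
  refine ⟨φ, hφ, _, b ∘ e, ⟨fun i => hb1 _, hb2.comp _ e.injective, ?_⟩, ?_⟩
  · intro z hz
    rw [Set.range_comp, e.surjective.range_eq, Set.image_univ]
    exact hb3 z hz
  · have h1 : (Matrix.of fun i j => φ ((b ∘ e) i) ((b ∘ e) j)) = (gram k l).submatrix e e := by
      ext i j
      simp [hb]
    rw [h1, det_submatrix_equiv_self]
    exact gram_unit k l hk

/-- **Main result.**

1. For every `n` divisible by `4` and every integer `k ≠ 0` with `8 |k| ≤ n` there is a unimodular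
   class `ω ∈ H^(n-4)(Z^n)` with form `k E₈ ⊕ l H`, `8 |k| + 2 l = n (n - 1) / 2`. (The signature is
   `8 k`; if `k` is odd then by Rohlin's theorem no smooth closed 4-manifold with fundamental group
   `Z^n` realizes `ω`. So the smooth question has a negative answer for all `n ≥ 8` divisible
   by `4`; the starting result is `n = 8`, `k = 1`.)
2. There is no unimodular class if `n ≥ 4` is congruent to `2` or `3` modulo `4`, or if `n = 5`. -/
theorem result :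
    (∀ (n : ℕ) (k : ℤ), 4 ∣ n → k ≠ 0 → 8 * k.natAbs ≤ n →
      ∃ ω ∈ H n (n - 4), Unimodular n ω ∧
        ∃ l : ℕ, 8 * k.natAbs + 2 * l = n.choose 2 ∧ HasForm n ω k l) ∧
    (∀ (n : ℕ) (ω : Coh n), 4 ≤ n → (n % 4 = 2 ∨ n % 4 = 3 ∨ n = 5) → ω ∈ H n (n - 4) →
      ¬ Unimodular n ω) := by
  refine ⟨fun n k hn hk hkn => ?_, fun n ω h4 hn hω h => ?_⟩
  · obtain ⟨ω, hω, l, hl, h⟩ := exists_class n k hn hk hkn
    exact ⟨ω, hω, h.unimodular hk, l, hl, h⟩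
  · rcases hn with hn | hn | rfl
    · exact Pool.Agent.Y692.TW.no n ω h4 (Or.inl hn) hω h
    · exact Pool.Agent.Y692.TW.no n ω h4 (Or.inr hn) hω h
    · exact Pool.Agent.Y929.TW.nofive ω hω h

end Pool.Agent.Results.MP_69cf13_gt.EightKPlusHyperbolic
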