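import Pool.Agent.Y466.TQ.Odd
import Pool.Agent.Y259.TW.CONGA
import Pool.Agent.Y436.TW.CONGB
import Pool.Agent.Y407.TW.PRODA
import Pool.Agent.Y43.TW.T4
import Pool.Agent.Y93.TW.T8
import Pool.Agent.Y799.TW.PD
import Pool.Agent.Y780.TQ.DEC
import Pool.Agent.Y47.TQ.SIG
import Pool.Agent.Y891.TQ.FIN
import Pool.Agent.Y115.TQ.CSIG
import Pool.Agent.Y693.TQ.TSIG
import Pool.Agent.Y255.TQ.PUR
import Pool.Agent.Y459.TQ.MIX

/-! # Unimodular classes on tori: odd `k` of quadratic size

For every `n ≥ 8` divisible by `4` there is a unimodular class `ω ∈ H^(n-4)(Z^n)` whose form has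
signature `8 k` with `k` odd and `k ≥ (n² - 130 n) / 32`. The signature of a unimodular class is at
most `(n - 1) (n - 4) / 2` in absolute value (the `n - 1` products `x_1 x_j` span an isotropic
subgroup), so the growth of `k` is half of the largest possible one.

The classes: on `m = 12 s` blocks of four indices one takes the sum over all pairs of blocks `i < j`
of the mixed term `∑ C p q · x^(i)_p ∧ x^(j)_q`, where `p`, `q` are the six pairs of indices of a
block and `C` is a fixed unimodular `6 × 6` matrix such that the 16-dimensional form of two blocks is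
unimodular of signature `8` and `C⁻¹ Cᵀ` has order `12` without eigenvalue `1`. The remaining
dimensions are filled with the classes of `EightKPlusHyperbolic`, which also adjusts the parity. -/

set_option autoImplicit false

namespace Pool.Agent.Results.MP_69cf13_gt.QuadraticSignature

open Matrix
open Pool.Agent.Results.MP_69cf13_gt.EEightPlusTenH (Coh H T IsFormOf IsZBasis)

/-- The signature of a symmetric integer matrix: the number of positive minus the number of
negative squares of the real quadratic form `x ↦ xᵀ A x`. -/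
noncomputable def signature {m : ℕ} (A : Matrix (Fin m) (Fin m) ℤ) : ℤ :=
  (sigPos (A.map (Int.cast : ℤ → ℝ)).toQuadraticForm' : ℤ) -
    (sigNeg (A.map (Int.cast : ℤ → ℝ)).toQuadraticForm' : ℤ)

/-- `G` is the Gram matrix of the form of the class `ω` in a `Z`-basis of `H^2(Z^n)`: there are a
form `φ` with `x y ω = φ(x, y) [T]` on `H^2(Z^n)` and a `Z`-basis `b` of `H^2(Z^n)` such that
`G i j = φ(b i, b j)`. -/
def IsGramOf (n : ℕ) (ω : Coh n) (G : Matrix (Fin (n.choose 2)) (Fin (n.choose 2)) ℤ) : Prop :=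
  ∃ φ : Coh n → Coh n → ℤ, IsFormOf (H n 2) ω (T n) φ ∧
    ∃ b : Fin (n.choose 2) → Coh n, IsZBasis (H n 2) b ∧ ∀ i j, G i j = φ (b i) (b j)

/-- **Main result.** For every `n ≥ 8` divisible by `4` there is a unimodular class
`ω ∈ H^(n-4)(Z^n)` whose form has signature `8 k` with `k` odd and `32 k ≥ n² - 130 n`. -/
theorem result (n : ℕ) (h4 : 4 ∣ n) (hn : 8 ≤ n) :
    ∃ ω ∈ H n (n - 4), ∃ G : Matrix (Fin (n.choose 2)) (Fin (n.choose 2)) ℤ,
      IsGramOf n ω G ∧ |G.det| = 1 ∧
      ∃ k : ℤ, Odd k ∧ signature G = 8 * k ∧ (n : ℤ) ^ 2 - 130 * n ≤ 32 * k := by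
  obtain ⟨ω, hω, φ, hφ, b, hb, hdet, k, hk, hs, hb2⟩ :=
    Pool.Agent.Y466.TQ.main Pool.Agent.Y259.TW.conga
      (Pool.Agent.Y436.TW.congb Pool.Agent.Y259.TW.conga) Pool.Agent.Y407.TW.proda
      (Pool.Agent.Y466.TW.step Pool.Agent.Y259.TW.conga
        (Pool.Agent.Y436.TW.congb Pool.Agent.Y259.TW.conga) Pool.Agent.Y407.TW.proda
        Pool.Agent.Y43.TW.T4.tfour)
      Pool.Agent.Y93.TW.teight Pool.Agent.Y115.TQ.csig Pool.Agent.Y693.TQ.tsig
      Pool.Agent.Y780.TQ.dec Pool.Agent.Y255.TQ.PUR.pur Pool.Agent.Y459.TQ.mix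
      Pool.Agent.Y47.TQ.sig (Pool.Agent.Y891.TQ.fin Pool.Agent.Y799.TW.PD.pd) n h4 hn
  exact ⟨ω, hω, Matrix.of fun i j => φ (b i) (b j), ⟨φ, hφ, b, hb, fun i j => rfl⟩, hdet, k, hk,
    hs, hb2⟩

end Pool.Agent.Results.MP_69cf13_gt.QuadraticSignature
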